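import Pool.Agent.H.MP_fabcd1_nt.Core

namespace Pool.Agent.Results.MP_fabcd1_nt.No

open Polynomial Finset Pool.Agent.H.MP_fabcd1_nt

/-- `p_S(a,3,n)`: partitions of `n` with all parts in `S` and number of parts `≡ a (mod 3)`. -/
noncomputable def pS (S : Set ℕ) (a : Fin 3) (n : ℕ) : ℕ :=
  Nat.card {p : n.Partition // (∀ i ∈ p.parts, i ∈ S) ∧ p.parts.card % 3 = a}

/-- `σ = (σ 0, σ 1, σ 2)` lists the residues by decreasing count, ties smaller index first. -/
def IsListing (S : Set ℕ) (n : ℕ) (σ : Equiv.Perm (Fin 3)) : Prop :=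
  ∀ i j : Fin 3, i < j →
    pS S (σ j) n < pS S (σ i) n ∨ (pS S (σ j) n = pS S (σ i) n ∧ σ i < σ j)

/-- membership of an integer polynomial in the class `𝓕` -/
def InF (f : ℤ[X]) : Prop :=
  (∃ n₀ : ℕ, ∀ n : ℕ, n₀ ≤ n → 0 < f.eval (n : ℤ) ∧ f.eval (n : ℤ) < f.eval (n + 1 : ℤ)) ∧
    ∀ p : ℕ, p.Prime → ∃ x : ℤ, ¬ (p : ℤ) ∣ f.eval x

/-- `S_f = {f(n) : n ≥ 1}` -/
def Sf (f : ℤ[X]) : Set ℕ := {s | ∃ n : ℕ, 1 ≤ n ∧ (s : ℤ) = f.eval (n : ℤ)}

theorem Sf_eq (s : ℕ) : s ∈ Sf (2 * X - 1) ↔ Odd s := by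
  simp only [Sf, Set.mem_setOf_eq, eval_sub, eval_mul, eval_ofNat, eval_X, eval_one]
  constructor
  · rintro ⟨n, h1, h2⟩
    exact ⟨n - 1, by omega⟩
  · rintro ⟨k, rfl⟩
    exact ⟨k + 1, by omega, by push_cast; ring⟩

theorem c_eq (x : ℂ) (hx : x ^ 3 = 1) (n : ℕ) :
    c (od x) n = ∑ a : Fin 3, (pS (Sf (2 * X - 1)) a n : ℂ) * x ^ (a : ℕ) := by
  classical
  simp only [pS, Sf_eq, Nat.card_eq_fintype_card, Fintype.card_subtype, card_filter]
  push_cast
  simp only [sum_mul]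
  rw [sum_comm, c]
  refine sum_congr rfl fun p _ => ?_
  by_cases h : ∀ i ∈ p.parts, Odd i
  · rw [Multiset.map_congr rfl (g := fun _ => x) fun i hi => by simp [od, h i hi],
      Multiset.map_const', Multiset.prod_replicate,
      sum_eq_single (⟨p.parts.card % 3, Nat.mod_lt _ (by norm_num)⟩ : Fin 3)]
    · rw [if_pos ⟨h, rfl⟩, one_mul]
      exact pow_eq_pow_mod _ hx
    · intro b _ hb
      rw [if_neg, zero_mul]
      exact fun hh => hb (Fin.ext hh.2.symm)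
    · simp
  · rw [sum_eq_zero fun a _ => by rw [if_neg fun hh => h hh.1, zero_mul]]
    push Not at h
    obtain ⟨i, hi, ho⟩ := h
    exact Multiset.prod_eq_zero (Multiset.mem_map.2 ⟨i, hi, by simp [od, ho]⟩)

theorem result : ∃ f : ℤ[X], InF f ∧ ∃ u : ℕ → Equiv.Perm (Fin 3),
    (∀ n, IsListing (Sf f) n (u n)) ∧
      ¬ ∃ T n₀ : ℕ, 0 < T ∧ ∀ n, n₀ ≤ n → u (n + T) = u n := by
  refine ⟨2 * X - 1, ⟨⟨1, fun n hn => ?_⟩, fun p hp => ⟨1, ?_⟩⟩,
    fun n => Tuple.sort fun a => -(pS (Sf (2 * X - 1)) a n : ℤ), fun n i j hij => ?_, ?_⟩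
  · simp only [eval_sub, eval_mul, eval_ofNat, eval_X, eval_one]; omega
  · simp only [eval_sub, eval_mul, eval_ofNat, eval_X, eval_one]
    norm_num
    exact_mod_cast fun h => hp.one_lt.ne' (Nat.dvd_one.1 h)
  · obtain ⟨h1, h2⟩ := (Tuple.eq_sort_iff (f := fun a => -(pS (Sf (2 * X - 1)) a n : ℤ))).1 rfl
    have h3 := h1 hij.le
    have h4 := h2 i j hij
    simp only [Function.comp, neg_le_neg_iff, Nat.cast_le, neg_inj, Nat.cast_inj] at h3 h4
    exact h3.lt_or_eq.imp id fun h => ⟨h, h4 h.symm⟩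
  rintro ⟨T, n₀, hT, hu⟩
  set S := Sf (2 * X - 1) with hS
  set u : ℕ → Equiv.Perm (Fin 3) := fun n => Tuple.sort fun a => -(pS S a n : ℤ) with hud
  have s3 : (Real.sqrt 3) ^ 2 = 3 := Real.sq_sqrt (by norm_num)
  have s0 := Real.sqrt_nonneg 3
  let x : ℂ := ⟨-1 / 2, -Real.sqrt 3 / 2⟩
  let y : ℂ := ⟨-1 / 2, Real.sqrt 3 / 2⟩
  have hx2 : x ^ 2 + x + 1 = 0 := by
    apply Complex.ext <;> simp [x, pow_two] <;> nlinarith
  have hy2 : y ^ 2 + y + 1 = 0 := by
    apply Complex.ext <;> simp [y, pow_two] <;> nlinarith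
  have hx3 : x ^ 3 = 1 := by linear_combination (x - 1) * hx2
  have hy3 : y ^ 3 = 1 := by linear_combination (y - 1) * hy2
  have hx : ‖x‖ = 1 := Complex.norm_eq_one_of_pow_eq_one hx3 (by norm_num)
  have hy : ‖y‖ = 1 := Complex.norm_eq_one_of_pow_eq_one hy3 (by norm_num)
  have hxy : x - y ≠ 0 := fun h => by
    have := congrArg Complex.im h
    simp [x, y] at this
    nlinarith
  have hsum : x + y = -1 := by apply Complex.ext <;> simp [x, y] <;> ring
  have hd : ∀ n, c (od x) n - c (od y) n = (x - y) * (((pS S 1 n : ℝ) - pS S 2 n : ℝ) : ℂ) := by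
    intro n
    rw [c_eq x hx3, c_eq y hy3, Fin.sum_univ_three, Fin.sum_univ_three]
    push_cast
    simp only [Fin.val_zero, Fin.val_one, Fin.val_two, ← hS]
    linear_combination (pS S 2 n : ℂ) * (x - y) * hsum
  let ε : Equiv.Perm (Fin 3) → ℝ := fun σ => if σ.symm 1 ≤ σ.symm 2 then 1 else -1
  have hε : ∀ n, |(pS S 1 n : ℝ) - pS S 2 n| = ε (u n) * ((pS S 1 n : ℝ) - pS S 2 n) := by
    intro n
    have m := Tuple.monotone_sort fun a => -(pS S a n : ℤ)
    simp only [ε]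
    split_ifs with h
    · have := m h
      simp only [Function.comp, hud, Equiv.apply_symm_apply, neg_le_neg_iff, Nat.cast_le] at this
      rw [one_mul, abs_of_nonneg (sub_nonneg.2 (by exact_mod_cast this))]
    · have := m (not_le.1 h).le
      simp only [Function.comp, hud, Equiv.apply_symm_apply, neg_le_neg_iff, Nat.cast_le] at this
      rw [neg_one_mul, abs_of_nonpos (sub_nonpos.2 (by exact_mod_cast this))]
  have per : ∀ k n, n₀ ≤ n → u (n + k * T) = u n := by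
    intro k n hn
    induction k with
    | zero => simp
    | succ k ih => rw [add_mul, one_mul, ← add_assoc, hu _ (by omega), ih]
  refine core x y hx hx2 (by simp only [x]; nlinarith) hy hy2 (by simp only [y]; positivity)
    (fun n => (‖x - y‖ : ℂ) / (x - y) * ε (u (n + n₀ * T))) T hT (fun n => ?_) n₀ fun n hn => ?_
  · rw [add_right_comm, hu _ (by nlinarith)]
  · rw [per _ _ hn, hd, norm_mul, Complex.norm_real, Real.norm_eq_abs, hε]
    push_cast
    field_simp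

end Pool.Agent.Results.MP_fabcd1_nt.No
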